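import Pool.Graph.R_pool_sql_team_seeded_5cf16337.K3h57.Refl

/-!
# Generated certificate
-/

set_option autoImplicit false
set_option maxRecDepth 100000
set_option linter.all false

namespace Pool.Agent.H248.Cert6
open Pool.Agent.K3h57 Pool.Agent.K3h57.Tm

abbrev t1 : Tm := .glue .line .line [[5, 1]] [[5, 1]]
theorem ok_t1 (B : Base) : Tm.Ok B t1 :=
  ok_rule ((fun _ => ok_line) B) [] .line _ _ (by decide +kernel)
noncomputable def v1 (B : Base) : ℝ := SS B .line [[1], [0, 1]]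
theorem e1 (B : Base) : SS B .line [[5, 1], [0, 1]] = v1 B :=
  ss_mor (fun _ => ok_line) [] .line _ _ (by decide +kernel) B
noncomputable def v2 (B : Base) : ℝ := SS B t1 [[5, 1], [0, 1], [5, 1, -5]]
theorem e2 (B : Base) : SS B t1 [[5, 1], [0, 1], [5, 1, -5]] = v2 B :=
  ss_mor ok_t1 [] t1 _ _ (by decide +kernel) B
noncomputable def v3 (B : Base) : ℝ := SS B .line [[5, 1]]
theorem e3 (B : Base) : SS B .line [[5, 1]] = v3 B :=
  ss_mor (fun _ => ok_line) [] .line _ _ (by decide +kernel) B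
theorem q1 (B : Base) : v1 B + v1 B ≤ v2 B + v3 B := by
  have h := ss_ind (S := .line) (R := .line) ok_t1 [[5, 1], [0, 1]] [[5, 1], [0, 1]] [[5, 1], [0, 1], [5, 1, -5]] (by decide +kernel) (by decide +kernel) (by decide +kernel) (by decide +kernel) B
  have he1 := e1 B
  have he2 := e2 B
  have he3 := e3 B
  linarith
theorem e4 (B : Base) : SS B t1 [[5, 4]] = v3 B :=
  ss_ref ok_t1 [.fst] .line _ _ (by decide +kernel) B
noncomputable def v4 (B : Base) : ℝ := SS B .line [[5, 2]]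
theorem e5 (B : Base) : SS B t1 [[15, 3, -10]] = v4 B :=
  ss_ref ok_t1 [.snd] .line _ _ (by decide +kernel) B
noncomputable def v5 (B : Base) : ℝ := SS B t1 [[15, 3, -10], [-10, 1, 10]]
theorem e6 (B : Base) : SS B t1 [[15, 3, -10], [-10, 1, 10]] = v5 B :=
  ss_mor ok_t1 [] t1 _ _ (by decide +kernel) B
theorem q2 (B : Base) : v5 B ≤ v3 B + v4 B := by
  have h := ss_add ok_t1 [[5, 4]] [[15, 3, -10]] [[15, 3, -10], [-10, 1, 10]] (by decide +kernel) B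
  have he4 := e4 B
  have he5 := e5 B
  have he6 := e6 B
  linarith
abbrev t2 : Tm := .glue t1 t1 [[1, 1], [15, 3, -10]] [[1, 1], [15, 3, -10]]
abbrev t3 : Tm := .glue t2 t2 [[15, 3, -10], [-5, 1, 5], [1, 1, 0, 0, 4]] [[15, 3, -10], [-5, 1, 5], [1, 1, 0, 0, 4]]
theorem ok_t2 (B : Base) : Tm.Ok B t2 :=
  ok_rule (ok_t1 B) [] t1 _ _ (by decide +kernel)
theorem ok_t3 (B : Base) : Tm.Ok B t3 :=
  ok_rule (ok_t2 B) [] t2 _ _ (by decide +kernel)
noncomputable def v6 (B : Base) : ℝ := SS B t2 [[1, 0, 0, 0, -1], [1, 2, 0, 0, 4], [4, 0, -5, 0, -4]]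
theorem e7 (B : Base) : SS B t3 [[1, 0, 0, 0, -1], [1, 2, 0, 0, 4], [4, 0, -5, 0, -4]] = v6 B :=
  ss_mor ok_t3 [.fst] t2 _ _ (by decide +kernel) B
noncomputable def v7 (B : Base) : ℝ := SS B t2 [[1, 0, 0, 0, -1], [1, 4, 0, 0, 4], [16, 4, -15, 0, 4]]
theorem e8 (B : Base) : SS B t3 [[1, 0, 0, 0, -1], [1, 4, 0, 0, 4], [16, 4, -15, 0, 4]] = v7 B :=
  ss_mor ok_t3 [.fst] t2 _ _ (by decide +kernel) B
noncomputable def v8 (B : Base) : ℝ := SS B t2 [[5, 1], [0, 1], [5, 1, -5], [1, 1, 0, 0, 4]]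
theorem e9 (B : Base) : SS B t3 [[5, 1], [0, 1], [5, 1, -5], [1, 1, 0, 0, 4]] = v8 B :=
  ss_mor ok_t3 [.fst] t2 _ _ (by decide +kernel) B
noncomputable def v9 (B : Base) : ℝ := SS B t2 [[1, 0, 0, 0, -1], [6, 4, -5, 0, 4]]
theorem e10 (B : Base) : SS B t3 [[1, 0, 0, 0, -1], [6, 4, -5, 0, 4]] = v9 B :=
  ss_mor ok_t3 [.fst] t2 _ _ (by decide +kernel) B
theorem q3 (B : Base) : v8 B + v9 B ≤ v6 B + v7 B := by
  have h := ss_sub ok_t3 [[1, 0, 0, 0, -1], [1, 2, 0, 0, 4], [4, 0, -5, 0, -4]] [[1, 0, 0, 0, -1], [1, 4, 0, 0, 4], [16, 4, -15, 0, 4]] [[5, 1], [0, 1], [5, 1, -5], [1, 1, 0, 0, 4]] [[1, 0, 0, 0, -1], [6, 4, -5, 0, 4]] (by decide +kernel) (by decide +kernel) (by decide +kernel) B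
  have he7 := e7 B
  have he8 := e8 B
  have he9 := e9 B
  have he10 := e10 B
  linarith
noncomputable def v10 (B : Base) : ℝ := SS B t1 [[-10, 2, 15]]
theorem e11 (B : Base) : SS B t1 [[25, 2, -20]] = v10 B :=
  ss_mor ok_t1 [.swap] t1 _ _ (by decide +kernel) B
noncomputable def v11 (B : Base) : ℝ := SS B .line [[1]]
theorem e12 (B : Base) : SS B t1 [[5, 1, -4]] = v11 B :=
  ss_ref ok_t1 [.snd] .line _ _ (by decide +kernel) B
theorem q4 (B : Base) : v2 B ≤ v10 B + v11 B := by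
  have h := ss_add ok_t1 [[25, 2, -20]] [[5, 1, -4]] [[5, 1], [0, 1], [5, 1, -5]] (by decide +kernel) B
  have he11 := e11 B
  have he12 := e12 B
  have he2 := e2 B
  linarith
noncomputable def v12 (B : Base) : ℝ := SS B t1 [[-5, 2, 10]]
theorem e13 (B : Base) : SS B t1 [[20, 2, -15]] = v12 B :=
  ss_mor ok_t1 [.swap] t1 _ _ (by decide +kernel) B
theorem e14 (B : Base) : SS B t1 [[20, 4, -15]] = v3 B :=
  ss_ref ok_t1 [.snd] .line _ _ (by decide +kernel) B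
theorem q5 (B : Base) : v2 B ≤ v12 B + v3 B := by
  have h := ss_add ok_t1 [[20, 2, -15]] [[20, 4, -15]] [[5, 1], [0, 1], [5, 1, -5]] (by decide +kernel) B
  have he13 := e13 B
  have he14 := e14 B
  have he2 := e2 B
  linarith
noncomputable def v13 (B : Base) : ℝ := SS B t1 [[15, 4, -10]]
theorem e15 (B : Base) : SS B t1 [[10, 4, -5]] = v13 B :=
  ss_mor ok_t1 [.swap] t1 _ _ (by decide +kernel) B
theorem e16 (B : Base) : SS B t1 [[10, 2, -5]] = v4 B :=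
  ss_mor ok_t1 [.snd] .line _ _ (by decide +kernel) B
theorem q6 (B : Base) : v2 B ≤ v13 B + v4 B := by
  have h := ss_add ok_t1 [[10, 4, -5]] [[10, 2, -5]] [[5, 1], [0, 1], [5, 1, -5]] (by decide +kernel) B
  have he15 := e15 B
  have he16 := e16 B
  have he2 := e2 B
  linarith
theorem e17 (B : Base) : SS B t1 [[15, 3, -10], [-5, 1, 5], [5, 1]] = v2 B :=
  ss_mor ok_t1 [] t1 _ _ (by decide +kernel) B
theorem e18 (B : Base) : SS B t2 [[5, 1], [0, 1], [5, 1, -5], [1, 1, 0, 0, 4]] = v8 B :=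
  ss_mor ok_t2 [] t2 _ _ (by decide +kernel) B
noncomputable def v14 (B : Base) : ℝ := SS B t1 [[15, 3, -10], [-5, 1, 5]]
theorem e19 (B : Base) : SS B t1 [[1, 1], [15, 3, -10]] = v14 B :=
  ss_mor ok_t1 [] t1 _ _ (by decide +kernel) B
theorem q7 (B : Base) : v2 B + v2 B ≤ v8 B + v14 B := by
  have h := ss_ind (S := t1) (R := t1) ok_t2 [[5, 1], [0, 1], [5, 1, -5]] [[15, 3, -10], [-5, 1, 5], [5, 1]] [[5, 1], [0, 1], [5, 1, -5], [1, 1, 0, 0, 4]] (by decide +kernel) (by decide +kernel) (by decide +kernel) (by decide +kernel) B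
  have he2 := e2 B
  have he17 := e17 B
  have he18 := e18 B
  have he19 := e19 B
  linarith
theorem e20 (B : Base) : SS B t1 [[1, 1]] = v11 B :=
  ss_ref ok_t1 [.fst] .line _ _ (by decide +kernel) B
theorem e21 (B : Base) : SS B t1 [[15, 3, -10], [-5, 1, 5]] = v14 B :=
  ss_mor ok_t1 [] t1 _ _ (by decide +kernel) B
theorem q8 (B : Base) : v14 B ≤ v11 B + v4 B := by
  have h := ss_add ok_t1 [[1, 1]] [[15, 3, -10]] [[15, 3, -10], [-5, 1, 5]] (by decide +kernel) B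
  have he20 := e20 B
  have he5 := e5 B
  have he21 := e21 B
  linarith
noncomputable def v15 (B : Base) : ℝ := SS B t2 [[12, 2, -5, 0, -2], [-9, 2, 10, 0, 4]]
theorem e22 (B : Base) : SS B t2 [[2, 2, 0, 0, 3], [6, 2, -5, 0, 4]] = v15 B :=
  ss_mor ok_t2 [.swap] t2 _ _ (by decide +kernel) B
theorem e23 (B : Base) : SS B t2 [[20, 4, -15], [-15, -1, 15]] = v5 B :=
  ss_mor ok_t2 [.fst, .swap] t1 _ _ (by decide +kernel) B
theorem e24 (B : Base) : SS B t2 [[-10, 2, 15]] = v10 B :=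
  ss_mor ok_t2 [.fst] t1 _ _ (by decide +kernel) B
theorem q9 (B : Base) : v8 B + v10 B ≤ v15 B + v5 B := by
  have h := ss_sub ok_t2 [[2, 2, 0, 0, 3], [6, 2, -5, 0, 4]] [[20, 4, -15], [-15, -1, 15]] [[5, 1], [0, 1], [5, 1, -5], [1, 1, 0, 0, 4]] [[-10, 2, 15]] (by decide +kernel) (by decide +kernel) (by decide +kernel) B
  have he22 := e22 B
  have he23 := e23 B
  have he18 := e18 B
  have he24 := e24 B
  linarith
theorem e25 (B : Base) : SS B t1 [[5, 2]] = v4 B :=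
  ss_mor ok_t1 [.fst] .line _ _ (by decide +kernel) B
noncomputable def v16 (B : Base) : ℝ := SS B t1 [[10, 2, -5], [-1, 0, 1]]
theorem e26 (B : Base) : SS B t1 [[10, 2, -5], [-1, 0, 1]] = v16 B :=
  ss_mor ok_t1 [] t1 _ _ (by decide +kernel) B
theorem q10 (B : Base) : v16 B ≤ v4 B + v4 B := by
  have h := ss_add ok_t1 [[5, 2]] [[10, 2, -5]] [[10, 2, -5], [-1, 0, 1]] (by decide +kernel) B
  have he25 := e25 B
  have he16 := e16 B
  have he26 := e26 B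
  linarith
noncomputable def v17 (B : Base) : ℝ := SS B t1 [[20, 4, -15], [-1, 0, 1]]
theorem e27 (B : Base) : SS B t1 [[20, 4, -15], [-1, 0, 1]] = v17 B :=
  ss_mor ok_t1 [] t1 _ _ (by decide +kernel) B
theorem q11 (B : Base) : v17 B ≤ v3 B + v3 B := by
  have h := ss_add ok_t1 [[5, 4]] [[20, 4, -15]] [[20, 4, -15], [-1, 0, 1]] (by decide +kernel) B
  have he4 := e4 B
  have he14 := e14 B
  have he27 := e27 B
  linarith
theorem e28 (B : Base) : SS B t2 [[10, 2, -5], [-1, 0, 1]] = v16 B :=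
  ss_mor ok_t2 [.fst] t1 _ _ (by decide +kernel) B
theorem e29 (B : Base) : SS B t2 [[8, 2, -5, 0, 2], [-4, 2, 5, 0, 4]] = v16 B :=
  ss_mor ok_t2 [.snd] t1 _ _ (by decide +kernel) B
noncomputable def v18 (B : Base) : ℝ := SS B t2 [[1, 0, 0, 0, -1], [1, 2, 0, 0, 4], [6, 2, -5, 0, 4]]
theorem e30 (B : Base) : SS B t2 [[1, 0, 0, 0, -1], [1, 2, 0, 0, 4], [6, 2, -5, 0, 4]] = v18 B :=
  ss_mor ok_t2 [] t2 _ _ (by decide +kernel) B
theorem e31 (B : Base) : SS B t2 [[20, 2, -15]] = v12 B :=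
  ss_mor ok_t2 [.fst, .swap] t1 _ _ (by decide +kernel) B
theorem q12 (B : Base) : v18 B + v12 B ≤ v16 B + v16 B := by
  have h := ss_sub ok_t2 [[10, 2, -5], [-1, 0, 1]] [[8, 2, -5, 0, 2], [-4, 2, 5, 0, 4]] [[1, 0, 0, 0, -1], [1, 2, 0, 0, 4], [6, 2, -5, 0, 4]] [[20, 2, -15]] (by decide +kernel) (by decide +kernel) (by decide +kernel) B
  have he28 := e28 B
  have he29 := e29 B
  have he30 := e30 B
  have he31 := e31 B
  linarith
noncomputable def v19 (B : Base) : ℝ := SS B t1 [[30, 6, -25], [-10, -1, 10]]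
theorem e32 (B : Base) : SS B t2 [[30, 6, -25], [-10, -1, 10]] = v19 B :=
  ss_mor ok_t2 [.fst] t1 _ _ (by decide +kernel) B
noncomputable def v20 (B : Base) : ℝ := SS B t1 [[10, 2, -5], [5, 2, -5]]
theorem e33 (B : Base) : SS B t2 [[6, 0, -5, 0, -6], [-2, 4, 5, 0, 12]] = v20 B :=
  ss_mor ok_t2 [.snd, .swap] t1 _ _ (by decide +kernel) B
noncomputable def v21 (B : Base) : ℝ := SS B t2 [[6, 1, 0, 0, -1], [1, 6, 0, 0, 4], [24, 4, -25, 0, -4]]
theorem e34 (B : Base) : SS B t2 [[0, -1, 0, 0, -5], [2, 3, 0, 0, 8], [6, 2, -5, 0, 4]] = v21 B :=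
  ss_mor ok_t2 [.swap] t2 _ _ (by decide +kernel) B
theorem e35 (B : Base) : SS B t2 [[10, 4, -5]] = v13 B :=
  ss_mor ok_t2 [.fst, .swap] t1 _ _ (by decide +kernel) B
theorem q13 (B : Base) : v21 B + v13 B ≤ v19 B + v20 B := by
  have h := ss_sub ok_t2 [[30, 6, -25], [-10, -1, 10]] [[6, 0, -5, 0, -6], [-2, 4, 5, 0, 12]] [[0, -1, 0, 0, -5], [2, 3, 0, 0, 8], [6, 2, -5, 0, 4]] [[10, 4, -5]] (by decide +kernel) (by decide +kernel) (by decide +kernel) B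
  have he32 := e32 B
  have he33 := e33 B
  have he34 := e34 B
  have he35 := e35 B
  linarith
theorem q14 (B : Base) : v8 B + v15 B ≤ v21 B + v18 B := by
  have h := ss_sub ok_t2 [[0, -1, 0, 0, -5], [2, 3, 0, 0, 8], [6, 2, -5, 0, 4]] [[1, 0, 0, 0, -1], [1, 2, 0, 0, 4], [6, 2, -5, 0, 4]] [[5, 1], [0, 1], [5, 1, -5], [1, 1, 0, 0, 4]] [[2, 2, 0, 0, 3], [6, 2, -5, 0, 4]] (by decide +kernel) (by decide +kernel) (by decide +kernel) B
  have he34 := e34 B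
  have he30 := e30 B
  have he18 := e18 B
  have he22 := e22 B
  linarith
theorem e36 (B : Base) : SS B t1 [[0, 0, 1]] = v11 B :=
  ss_mor ok_t1 [.snd] .line _ _ (by decide +kernel) B
theorem e37 (B : Base) : SS B t1 [[0, 0, 1], [5, 2, -5]] = v20 B :=
  ss_mor ok_t1 [.swap] t1 _ _ (by decide +kernel) B
theorem q15 (B : Base) : v20 B ≤ v4 B + v11 B := by
  have h := ss_add ok_t1 [[5, 2]] [[0, 0, 1]] [[0, 0, 1], [5, 2, -5]] (by decide +kernel) B
  have he25 := e25 B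
  have he36 := e36 B
  have he37 := e37 B
  linarith
theorem e38 (B : Base) : SS B t2 [[20, 4, -15], [-1, 0, 1]] = v17 B :=
  ss_mor ok_t2 [.fst] t1 _ _ (by decide +kernel) B
noncomputable def v22 (B : Base) : ℝ := SS B t2 [[11, 2, 0, 0, -1], [1, 10, 0, 0, 4], [44, 8, -45, 0, -4]]
theorem e39 (B : Base) : SS B t2 [[-1, -2, 0, 0, -9], [3, 4, 0, 0, 12], [8, 4, -5, 0, 12]] = v22 B :=
  ss_mor ok_t2 [.swap] t2 _ _ (by decide +kernel) B
theorem q16 (B : Base) : v22 B + v13 B ≤ v17 B + v20 B := by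
  have h := ss_sub ok_t2 [[20, 4, -15], [-1, 0, 1]] [[6, 0, -5, 0, -6], [-2, 4, 5, 0, 12]] [[-1, -2, 0, 0, -9], [3, 4, 0, 0, 12], [8, 4, -5, 0, 12]] [[10, 4, -5]] (by decide +kernel) (by decide +kernel) (by decide +kernel) B
  have he38 := e38 B
  have he33 := e33 B
  have he39 := e39 B
  have he35 := e35 B
  linarith
theorem e40 (B : Base) : SS B t3 [[11, 2, 0, 0, -1], [1, 10, 0, 0, 4], [44, 8, -45, 0, -4]] = v22 B :=
  ss_mor ok_t3 [.fst] t2 _ _ (by decide +kernel) B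
theorem e41 (B : Base) : SS B t3 [[-1, -2, 0, 0, -9], [3, 4, 0, 0, 12], [8, 4, -5, 0, 12]] = v22 B :=
  ss_mor ok_t3 [.fst, .swap] t2 _ _ (by decide +kernel) B
noncomputable def v23 (B : Base) : ℝ := SS B t2 [[33, 6, -25, 0, -3], [-62, 4, 65, 0, 12]]
theorem e42 (B : Base) : SS B t3 [[33, 6, -25, 0, -3], [-62, 4, 65, 0, 12]] = v23 B :=
  ss_mor ok_t3 [.fst] t2 _ _ (by decide +kernel) B
theorem q17 (B : Base) : v8 B + v23 B ≤ v22 B + v22 B := by
  have h := ss_sub ok_t3 [[11, 2, 0, 0, -1], [1, 10, 0, 0, 4], [44, 8, -45, 0, -4]] [[-1, -2, 0, 0, -9], [3, 4, 0, 0, 12], [8, 4, -5, 0, 12]] [[5, 1], [0, 1], [5, 1, -5], [1, 1, 0, 0, 4]] [[33, 6, -25, 0, -3], [-62, 4, 65, 0, 12]] (by decide +kernel) (by decide +kernel) (by decide +kernel) B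
  have he40 := e40 B
  have he41 := e41 B
  have he9 := e9 B
  have he42 := e42 B
  linarith
theorem e43 (B : Base) : SS B t2 [[22, 4, -15, 0, -2], [-14, 4, 15, 0, 4]] = v17 B :=
  ss_mor ok_t2 [.snd] t1 _ _ (by decide +kernel) B
theorem e44 (B : Base) : SS B t2 [[1, 0, 0, 0, -1], [1, 4, 0, 0, 4], [16, 4, -15, 0, 4]] = v7 B :=
  ss_mor ok_t2 [] t2 _ _ (by decide +kernel) B
theorem q18 (B : Base) : v7 B + v13 B ≤ v17 B + v17 B := by
  have h := ss_sub ok_t2 [[20, 4, -15], [-1, 0, 1]] [[22, 4, -15, 0, -2], [-14, 4, 15, 0, 4]] [[1, 0, 0, 0, -1], [1, 4, 0, 0, 4], [16, 4, -15, 0, 4]] [[10, 4, -5]] (by decide +kernel) (by decide +kernel) (by decide +kernel) B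
  have he38 := e38 B
  have he43 := e43 B
  have he44 := e44 B
  have he35 := e35 B
  linarith
noncomputable def v24 (B : Base) : ℝ := SS B t2 [[1, 0, 0, 0, -1], [2, 7, 0, 0, 8], [26, 6, -25, 0, 4]]
theorem e45 (B : Base) : SS B t2 [[1, 0, 0, 0, -1], [2, 7, 0, 0, 8], [26, 6, -25, 0, 4]] = v24 B :=
  ss_mor ok_t2 [] t2 _ _ (by decide +kernel) B
theorem e46 (B : Base) : SS B t2 [[5, 1], [0, 1], [5, 1, -5]] = v2 B :=
  ss_mor ok_t2 [.fst] t1 _ _ (by decide +kernel) B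
theorem q19 (B : Base) : v8 B + v19 B ≤ v24 B + v2 B := by
  have h := ss_sub ok_t2 [[1, 0, 0, 0, -1], [2, 7, 0, 0, 8], [26, 6, -25, 0, 4]] [[5, 1], [0, 1], [5, 1, -5]] [[5, 1], [0, 1], [5, 1, -5], [1, 1, 0, 0, 4]] [[30, 6, -25], [-10, -1, 10]] (by decide +kernel) (by decide +kernel) (by decide +kernel) B
  have he45 := e45 B
  have he46 := e46 B
  have he18 := e18 B
  have he32 := e32 B
  linarith
theorem e47 (B : Base) : SS B t2 [[0, 0, 1], [5, 2, -5]] = v20 B :=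
  ss_mor ok_t2 [.fst, .swap] t1 _ _ (by decide +kernel) B
theorem e48 (B : Base) : SS B t2 [[1, 0, 0, 0, -1], [1, 2, 0, 0, 4], [4, 0, -5, 0, -4]] = v6 B :=
  ss_mor ok_t2 [] t2 _ _ (by decide +kernel) B
theorem q20 (B : Base) : v6 B + v13 B ≤ v20 B + v20 B := by
  have h := ss_sub ok_t2 [[0, 0, 1], [5, 2, -5]] [[6, 0, -5, 0, -6], [-2, 4, 5, 0, 12]] [[1, 0, 0, 0, -1], [1, 2, 0, 0, 4], [4, 0, -5, 0, -4]] [[10, 4, -5]] (by decide +kernel) (by decide +kernel) (by decide +kernel) B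
  have he47 := e47 B
  have he33 := e33 B
  have he48 := e48 B
  have he35 := e35 B
  linarith
theorem e49 (B : Base) : SS B t2 [[33, 6, -25, 0, -3], [-62, 4, 65, 0, 12]] = v23 B :=
  ss_mor ok_t2 [] t2 _ _ (by decide +kernel) B
theorem e50 (B : Base) : SS B t2 [[1, 0, 0, 0, -1], [6, 4, -5, 0, 4]] = v9 B :=
  ss_mor ok_t2 [] t2 _ _ (by decide +kernel) B
theorem q21 (B : Base) : v24 B + v13 B ≤ v23 B + v9 B := by
  have h := ss_sub ok_t2 [[33, 6, -25, 0, -3], [-62, 4, 65, 0, 12]] [[1, 0, 0, 0, -1], [6, 4, -5, 0, 4]] [[1, 0, 0, 0, -1], [2, 7, 0, 0, 8], [26, 6, -25, 0, 4]] [[10, 4, -5]] (by decide +kernel) (by decide +kernel) (by decide +kernel) B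
  have he49 := e49 B
  have he50 := e50 B
  have he45 := e45 B
  have he35 := e35 B
  linarith

theorem final (B : Base) : 0 ≤ (-1 : ℝ) * v1 B + (27/34 : ℝ) * v3 B + (11/34 : ℝ) * v11 B + (21/34 : ℝ) * v4 B := by
  have gq1 := q1 B
  have gq2 := q2 B
  have gq3 := q3 B
  have gq4 := q4 B
  have gq5 := q5 B
  have gq6 := q6 B
  have gq7 := q7 B
  have gq8 := q8 B
  have gq9 := q9 B
  have gq10 := q10 B
  have gq11 := q11 B
  have gq12 := q12 B
  have gq13 := q13 B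
  have gq14 := q14 B
  have gq15 := q15 B
  have gq16 := q16 B
  have gq17 := q17 B
  have gq18 := q18 B
  have gq19 := q19 B
  have gq20 := q20 B
  have gq21 := q21 B
  linear_combination (1/2 : ℝ) * gq1 + (1/34 : ℝ) * gq2 + (1/34 : ℝ) * gq3 + (1/34 : ℝ) * gq4 + (1/34 : ℝ) * gq5 + (3/17 : ℝ) * gq6 + (5/34 : ℝ) * gq7 + (5/34 : ℝ) * gq8 + (1/34 : ℝ) * gq9 + (1/17 : ℝ) * gq10 + (2/17 : ℝ) * gq11 + (1/34 : ℝ) * gq12 + (1/34 : ℝ) * gq13 + (1/34 : ℝ) * gq14 + (5/34 : ℝ) * gq15 + (1/17 : ℝ) * gq16 + (1/34 : ℝ) * gq17 + (1/34 : ℝ) * gq18 + (1/34 : ℝ) * gq19 + (1/34 : ℝ) * gq20 + (1/34 : ℝ) * gq21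

end Pool.Agent.H248.Cert6
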