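import Pool.Graph.R_pool_sql_team_seeded_5cf16337.K3h57.Refl

/-!
# Generated certificate
-/

set_option autoImplicit false
set_option maxRecDepth 100000
set_option linter.all false

namespace Pool.Agent.H248.Cert7
open Pool.Agent.K3h57 Pool.Agent.K3h57.Tm

abbrev t1 : Tm := .glue .line .line [[1]] [[1]]
theorem ok_t1 (B : Base) : Tm.Ok B t1 :=
  ok_rule ((fun _ => ok_line) B) [] .line _ _ (by decide +kernel)
noncomputable def v1 (B : Base) : ℝ := SS B .line [[1], [0, 1]]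
theorem e1 (B : Base) : SS B .line [[1], [0, 1]] = v1 B :=
  ss_mor (fun _ => ok_line) [] .line _ _ (by decide +kernel) B
noncomputable def v2 (B : Base) : ℝ := SS B t1 [[1], [0, 1], [0, 0, 0, 1]]
theorem e2 (B : Base) : SS B t1 [[1], [0, 1], [0, 0, 0, 1]] = v2 B :=
  ss_mor ok_t1 [] t1 _ _ (by decide +kernel) B
noncomputable def v3 (B : Base) : ℝ := SS B .line [[1]]
theorem e3 (B : Base) : SS B .line [[1]] = v3 B :=
  ss_mor (fun _ => ok_line) [] .line _ _ (by decide +kernel) B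
theorem q1 (B : Base) : v1 B + v1 B ≤ v2 B + v3 B := by
  have h := ss_ind (S := .line) (R := .line) ok_t1 [[1], [0, 1]] [[1], [0, 1]] [[1], [0, 1], [0, 0, 0, 1]] (by decide +kernel) (by decide +kernel) (by decide +kernel) (by decide +kernel) B
  have he1 := e1 B
  have he2 := e2 B
  have he3 := e3 B
  linarith
noncomputable def v4 (B : Base) : ℝ := SS B .line [[3, 1]]
theorem e4 (B : Base) : SS B t1 [[3, 1]] = v4 B :=
  ss_mor ok_t1 [.fst] .line _ _ (by decide +kernel) B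
theorem e5 (B : Base) : SS B t1 [[3, 0, 0, 1]] = v4 B :=
  ss_mor ok_t1 [.snd] .line _ _ (by decide +kernel) B
noncomputable def v5 (B : Base) : ℝ := SS B t1 [[3, 0, 0, 1], [0, 1, 0, -1]]
theorem e6 (B : Base) : SS B t1 [[3, 0, 0, 1], [0, 1, 0, -1]] = v5 B :=
  ss_mor ok_t1 [] t1 _ _ (by decide +kernel) B
theorem q2 (B : Base) : v5 B ≤ v4 B + v4 B := by
  have h := ss_add ok_t1 [[3, 1]] [[3, 0, 0, 1]] [[3, 0, 0, 1], [0, 1, 0, -1]] (by decide +kernel) B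
  have he4 := e4 B
  have he5 := e5 B
  have he6 := e6 B
  linarith
noncomputable def v6 (B : Base) : ℝ := SS B t1 [[3, 2, 0, -1]]
theorem e7 (B : Base) : SS B t1 [[3, 2, 0, -1]] = v6 B :=
  ss_mor ok_t1 [] t1 _ _ (by decide +kernel) B
theorem e8 (B : Base) : SS B t1 [[3, 2]] = v4 B :=
  ss_ref ok_t1 [.fst] .line _ _ (by decide +kernel) B
theorem q3 (B : Base) : v2 B ≤ v6 B + v4 B := by
  have h := ss_add ok_t1 [[3, 2, 0, -1]] [[3, 2]] [[1], [0, 1], [0, 0, 0, 1]] (by decide +kernel) B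
  have he7 := e7 B
  have he8 := e8 B
  have he2 := e2 B
  linarith
abbrev t2 : Tm := .glue t1 t1 [[3, 1], [3, 0, 0, 1]] [[3, 1], [3, 0, 0, 1]]
theorem ok_t2 (B : Base) : Tm.Ok B t2 :=
  ok_rule (ok_t1 B) [] t1 _ _ (by decide +kernel)
theorem e9 (B : Base) : SS B t2 [[1, 1]] = v3 B :=
  ss_ref ok_t2 [.fst, .fst] .line _ _ (by decide +kernel) B
theorem e10 (B : Base) : SS B t2 [[6, 0, 0, 2, -3]] = v4 B :=
  ss_ref ok_t2 [.snd, .snd] .line _ _ (by decide +kernel) B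
noncomputable def v7 (B : Base) : ℝ := SS B t2 [[6, 0, 0, 2, -3], [0, 6, 0, -2, 3]]
theorem e11 (B : Base) : SS B t2 [[6, 0, 0, 2, -3], [0, 6, 0, -2, 3]] = v7 B :=
  ss_mor ok_t2 [] t2 _ _ (by decide +kernel) B
theorem q4 (B : Base) : v7 B ≤ v3 B + v4 B := by
  have h := ss_add ok_t2 [[1, 1]] [[6, 0, 0, 2, -3]] [[6, 0, 0, 2, -3], [0, 6, 0, -2, 3]] (by decide +kernel) B
  have he9 := e9 B
  have he10 := e10 B
  have he11 := e11 B
  linarith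
theorem e12 (B : Base) : SS B t1 [[3, 0, 0, 1], [0, 1, 0, -1], [1]] = v2 B :=
  ss_mor ok_t1 [] t1 _ _ (by decide +kernel) B
noncomputable def v8 (B : Base) : ℝ := SS B t2 [[1], [0, 1], [0, 0, 0, 1], [0, 0, 0, 0, 1]]
theorem e13 (B : Base) : SS B t2 [[1], [0, 1], [0, 0, 0, 1], [0, 0, 0, 0, 1]] = v8 B :=
  ss_mor ok_t2 [] t2 _ _ (by decide +kernel) B
theorem e14 (B : Base) : SS B t1 [[3, 1], [3, 0, 0, 1]] = v5 B :=
  ss_mor ok_t1 [] t1 _ _ (by decide +kernel) B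
theorem q5 (B : Base) : v2 B + v2 B ≤ v8 B + v5 B := by
  have h := ss_ind (S := t1) (R := t1) ok_t2 [[1], [0, 1], [0, 0, 0, 1]] [[3, 0, 0, 1], [0, 1, 0, -1], [1]] [[1], [0, 1], [0, 0, 0, 1], [0, 0, 0, 0, 1]] (by decide +kernel) (by decide +kernel) (by decide +kernel) (by decide +kernel) B
  have he2 := e2 B
  have he12 := e12 B
  have he13 := e13 B
  have he14 := e14 B
  linarith
noncomputable def v9 (B : Base) : ℝ := SS B t2 [[6, 1, 0, 2, -2]]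
theorem e15 (B : Base) : SS B t2 [[7, 2, 0, 1, -3]] = v9 B :=
  ss_mor ok_t2 [.swap, .L (.swap) [[0, 0, 3, 1], [0, 1, 3]], .R (.swap) [[0, 0, 3, 1], [0, 1, 3]], .reb [[3, 1], [3, 0, 0, 1]] [[3, 1], [3, 0, 0, 1]]] t2 _ _ (by decide +kernel) B
noncomputable def v10 (B : Base) : ℝ := SS B .line [[2, 1]]
theorem e16 (B : Base) : SS B t2 [[2, 1]] = v10 B :=
  ss_mor ok_t2 [.fst, .fst] .line _ _ (by decide +kernel) B
noncomputable def v11 (B : Base) : ℝ := SS B t2 [[1], [0, 1], [0, 0, 0, 1, -1]]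
theorem e17 (B : Base) : SS B t2 [[3, 0, 0, 1], [0, 3, 0, -2], [0, 0, 0, 0, 1]] = v11 B :=
  ss_mor ok_t2 [.swap, .L (.swap) [[0, 0, 3, 1], [0, 1, 3]], .R (.swap) [[0, 0, 3, 1], [0, 1, 3]], .reb [[3, 1], [3, 0, 0, 1]] [[3, 1], [3, 0, 0, 1]]] t2 _ _ (by decide +kernel) B
theorem q6 (B : Base) : v11 B ≤ v9 B + v10 B := by
  have h := ss_add ok_t2 [[7, 2, 0, 1, -3]] [[2, 1]] [[3, 0, 0, 1], [0, 3, 0, -2], [0, 0, 0, 0, 1]] (by decide +kernel) B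
  have he15 := e15 B
  have he16 := e16 B
  have he17 := e17 B
  linarith
noncomputable def v12 (B : Base) : ℝ := SS B t2 [[3, 0, 0, 1, -1], [0, 3, 0, -2, -1]]
theorem e18 (B : Base) : SS B t2 [[3, 0, 0, 1, -1], [0, 3, 0, -2, -1]] = v12 B :=
  ss_mor ok_t2 [] t2 _ _ (by decide +kernel) B
theorem e19 (B : Base) : SS B t2 [[1, 0, 0, 1], [0, 2, 0, -6, -3]] = v7 B :=
  ss_mor ok_t2 [.L (.swap) [[0, 0, 3, 1], [0, 1, 3]], .R (.swap) [[0, 0, 3, 1], [0, 1, 3]], .reb [[3, 1], [3, 0, 0, 1]] [[3, 1], [3, 0, 0, 1]]] t2 _ _ (by decide +kernel) B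
theorem q7 (B : Base) : v8 B + v9 B ≤ v12 B + v7 B := by
  have h := ss_sub ok_t2 [[3, 0, 0, 1, -1], [0, 3, 0, -2, -1]] [[1, 0, 0, 1], [0, 2, 0, -6, -3]] [[1], [0, 1], [0, 0, 0, 1], [0, 0, 0, 0, 1]] [[7, 2, 0, 1, -3]] (by decide +kernel) (by decide +kernel) (by decide +kernel) B
  have he18 := e18 B
  have he19 := e19 B
  have he13 := e13 B
  have he15 := e15 B
  linarith
theorem e20 (B : Base) : SS B t1 [[1, 1]] = v3 B :=
  ss_ref ok_t1 [.fst] .line _ _ (by decide +kernel) B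
theorem e21 (B : Base) : SS B t1 [[2, 0, 0, 1]] = v10 B :=
  ss_mor ok_t1 [.snd] .line _ _ (by decide +kernel) B
noncomputable def v13 (B : Base) : ℝ := SS B t1 [[2, 0, 0, 1], [0, 2, 0, -1]]
theorem e22 (B : Base) : SS B t1 [[2, 0, 0, 1], [0, 2, 0, -1]] = v13 B :=
  ss_mor ok_t1 [] t1 _ _ (by decide +kernel) B
theorem q8 (B : Base) : v13 B ≤ v3 B + v10 B := by
  have h := ss_add ok_t1 [[1, 1]] [[2, 0, 0, 1]] [[2, 0, 0, 1], [0, 2, 0, -1]] (by decide +kernel) B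
  have he20 := e20 B
  have he21 := e21 B
  have he22 := e22 B
  linarith
noncomputable def v14 (B : Base) : ℝ := SS B t2 [[1, 0, 0, 0, -1], [0, 1, 0, 0, 2], [0, 0, 0, 1, 1]]
theorem e23 (B : Base) : SS B t2 [[1, 0, 0, 0, -1], [0, 1, 0, 0, 1], [0, 0, 0, 1, 2]] = v14 B :=
  ss_mor ok_t2 [.L (.swap) [[0, 0, 3, 1], [0, 1, 3]], .R (.swap) [[0, 0, 3, 1], [0, 1, 3]], .reb [[3, 1], [3, 0, 0, 1]] [[3, 1], [3, 0, 0, 1]]] t2 _ _ (by decide +kernel) B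
theorem q9 (B : Base) : v8 B + v12 B ≤ v11 B + v14 B := by
  have h := ss_sub ok_t2 [[3, 0, 0, 1], [0, 3, 0, -2], [0, 0, 0, 0, 1]] [[1, 0, 0, 0, -1], [0, 1, 0, 0, 1], [0, 0, 0, 1, 2]] [[1], [0, 1], [0, 0, 0, 1], [0, 0, 0, 0, 1]] [[3, 0, 0, 1, -1], [0, 3, 0, -2, -1]] (by decide +kernel) (by decide +kernel) (by decide +kernel) B
  have he17 := e17 B
  have he23 := e23 B
  have he13 := e13 B
  have he18 := e18 B
  linarith
theorem e24 (B : Base) : SS B t2 [[2, 0, 0, 1], [0, 2, 0, -1]] = v13 B :=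
  ss_mor ok_t2 [.fst] t1 _ _ (by decide +kernel) B
theorem e25 (B : Base) : SS B t2 [[3, 0, 0, 1, -1], [0, 1, 0, -1, -1]] = v13 B :=
  ss_mor ok_t2 [.snd] t1 _ _ (by decide +kernel) B
theorem e26 (B : Base) : SS B t2 [[3, -1, 0, 2]] = v6 B :=
  ss_mor ok_t2 [.fst, .swap] t1 _ _ (by decide +kernel) B
theorem q10 (B : Base) : v14 B + v6 B ≤ v13 B + v13 B := by
  have h := ss_sub ok_t2 [[2, 0, 0, 1], [0, 2, 0, -1]] [[3, 0, 0, 1, -1], [0, 1, 0, -1, -1]] [[1, 0, 0, 0, -1], [0, 1, 0, 0, 1], [0, 0, 0, 1, 2]] [[3, -1, 0, 2]] (by decide +kernel) (by decide +kernel) (by decide +kernel) B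
  have he24 := e24 B
  have he25 := e25 B
  have he23 := e23 B
  have he26 := e26 B
  linarith

theorem final (B : Base) : 0 ≤ (-1 : ℝ) * v1 B + (4/5 : ℝ) * v3 B + (3/5 : ℝ) * v4 B + (3/10 : ℝ) * v10 B := by
  have gq1 := q1 B
  have gq2 := q2 B
  have gq3 := q3 B
  have gq4 := q4 B
  have gq5 := q5 B
  have gq6 := q6 B
  have gq7 := q7 B
  have gq8 := q8 B
  have gq9 := q9 B
  have gq10 := q10 B
  linear_combination (1/2 : ℝ) * gq1 + (1/5 : ℝ) * gq2 + (1/10 : ℝ) * gq3 + (1/10 : ℝ) * gq4 + (1/5 : ℝ) * gq5 + (1/10 : ℝ) * gq6 + (1/10 : ℝ) * gq7 + (1/5 : ℝ) * gq8 + (1/10 : ℝ) * gq9 + (1/10 : ℝ) * gq10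

end Pool.Agent.H248.Cert7
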