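import Pool.Graph.R_pool_sql_team_seeded_5cf16337.K3h57.Slopes
import Pool.Agent.H248.Cert4
import Pool.Agent.H248.Cert6
import Pool.Agent.H248.Cert7

/-!
# Patterns of four, six and five terms: `0, 1, 2, 3`, `0, 1, 2, 3, 4, 5` and `0, 2, 3, 4, 6`
-/

set_option autoImplicit false

open Finset

namespace Pool.Agent.H248
open Pool.Agent.K3h57

/-- The pattern `J` with exponent `c`: if `S` contains `z.1 + j z.2`, `j ∈ J`, for every `z ∈ P`
and the common differences `z.2` are distinct then `|P| ≤ |S| ^ c`. -/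
def Pat (J : Finset ℕ) (c : ℝ) : Prop :=
  ∀ (P : Finset (ℤ × ℤ)) (S : Finset ℤ), Set.InjOn Prod.snd (P : Set (ℤ × ℤ)) →
    (∀ z ∈ P, ∀ i ∈ J, z.1 + (i : ℤ) * z.2 ∈ S) → (P.card : ℝ) ≤ (S.card : ℝ) ^ c

/-- A certificate with heights `j / m`, `j ∈ J`, gives the bound for the pattern `J`. -/
theorem pat_of_cert (m : ℕ) (hm : 0 < m) (J : Finset ℕ) (h0 : 0 ∈ J)
    (hJ : ∀ i ∈ J, i ≤ m ∧ m - i ∈ J) (c : ℝ) (hc : 0 < c)
    (h : ∀ (B : Base) (T : ℝ), SS B .line [[1]] ≤ T →
      (∀ (q p : ℤ) (i : ℕ), i ∈ J → 0 < q → (i : ℤ) * q = p * m → SS B .line [[q, p]] ≤ T) →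
        SS B .line [[1], [0, 1]] ≤ c * T) : Pat J c := by
  intro P S hinj hS
  have hmJ : m ∈ J := (hJ 0 h0).2
  rcases P.eq_empty_or_nonempty with hP | hP
  · subst hP
    simp only [Finset.card_empty, Nat.cast_zero]
    positivity
  set A : Finset (ℤ × ℤ) := P.image (fun z => (z.1 + m * z.2, z.1)) with hAd
  have hA : A.Nonempty := hP.image _
  have hm0 : (m : ℤ) ≠ 0 := by exact_mod_cast hm.ne'
  have hcard : (A.image (fun z => z.1 - z.2)).card = P.card := by
    rw [hAd, Finset.image_image]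
    refine Finset.card_image_of_injOn fun a ha b hb e => hinj ha hb ?_
    simp only [Function.comp_apply, add_sub_cancel_left] at e
    exact mul_left_cancel₀ hm0 e
  have hsl : ∀ (q p : ℤ) (i : ℕ), i ∈ J → (i : ℤ) * q = p * m → (sl q p A).card ≤ S.card := by
    intro q p i hi e
    have h1 : sl q p A ⊆ S.image (fun s => q * s) := by
      intro x hx
      simp only [sl, hAd, Finset.image_image, Finset.mem_image, Function.comp_apply] at hx ⊢
      obtain ⟨z, hz, rfl⟩ := hx
      refine ⟨z.1 + i * z.2, hS z hz i hi, ?_⟩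
      have : q * ((i : ℤ) * z.2) = (p * m) * z.2 := by rw [← e]; ring
      rw [mul_add, this]
      ring
    exact (Finset.card_le_card h1).trans Finset.card_image_le
  have hSne : 0 < S.card := by
    obtain ⟨z, hz⟩ := hP
    exact Finset.card_pos.2 ⟨_, hS z hz 0 h0⟩
  have hlog : ∀ (q p : ℤ) (i : ℕ), i ∈ J → (i : ℤ) * q = p * m →
      Real.log (sl q p A).card ≤ Real.log S.card := by
    intro q p i hi e
    have hne : 0 < (sl q p A).card := Finset.card_pos.2 (hA.image _)
    exact Real.log_le_log (by exact_mod_cast hne) (by exact_mod_cast hsl q p i hi e)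
  obtain ⟨B, b1, b2, b3⟩ := slopes_SS A hA
  have key := h B (2 * Real.log S.card) ?_ ?_
  · rw [b1, hcard] at key
    have p0 : (0 : ℝ) < P.card := by exact_mod_cast Finset.card_pos.2 hP
    have p1 : (0 : ℝ) < S.card := by exact_mod_cast hSne
    rw [← Real.log_le_log_iff p0 (Real.rpow_pos_of_pos p1 _), Real.log_rpow p1]
    linarith
  · refine b2.trans ?_
    have h1 := hlog 1 0 0 h0 (by simp)
    have h2 := hlog 1 1 m hmJ (by ring)
    linarith
  · intro q p i hi _ e
    refine (b3 q p).trans ?_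
    have h1 := hlog q p i hi e
    have h2 := hlog q (q - p) (m - i) (hJ i hi).2 (by
      rw [Nat.cast_sub (hJ i hi).1]
      linear_combination -e)
    linarith

/-- Four terms: exponent `9 / 5`. -/
theorem pat4 : Pat {0, 1, 2, 3} (9 / 5) := by
  refine pat_of_cert 3 (by norm_num) _ (by simp) (by decide) _ (by norm_num) fun B T h0 h => ?_
  have h1 := h 3 1 1 (by decide) (by norm_num) (by norm_num)
  have := Cert4.final B
  simp only [Cert4.v4, Cert4.v6, Cert4.v2] at this
  linarith

/-- Six terms: exponent `59 / 34`. -/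
theorem pat6 : Pat {0, 1, 2, 3, 4, 5} (59 / 34) := by
  refine pat_of_cert 5 (by norm_num) _ (by simp) (by decide) _ (by norm_num) fun B T h0 h => ?_
  have h1 := h 5 1 1 (by decide) (by norm_num) (by norm_num)
  have h2 := h 5 2 2 (by decide) (by norm_num) (by norm_num)
  have := Cert6.final B
  simp only [Cert6.v1, Cert6.v3, Cert6.v11, Cert6.v4] at this
  linarith

/-- The pattern `0, 2, 3, 4, 6`: exponent `17 / 10`. -/
theorem pat5 : Pat {0, 2, 3, 4, 6} (17 / 10) := by
  refine pat_of_cert 6 (by norm_num) _ (by simp) (by decide) _ (by norm_num) fun B T h0 h => ?_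
  have h1 := h 3 1 2 (by decide) (by norm_num) (by norm_num)
  have h2 := h 2 1 3 (by decide) (by norm_num) (by norm_num)
  have := Cert7.final B
  simp only [Cert7.v1, Cert7.v3, Cert7.v4, Cert7.v10] at this
  linarith

theorem ap4 : APk 4 (9 / 5) := by
  intro P S hi hS
  refine pat4 P S hi fun z hz i hJ => hS z hz i ?_
  revert i
  decide

theorem ap7 : APk 7 (17 / 10) := by
  intro P S hi hS
  refine pat5 P S hi fun z hz i hJ => hS z hz i ?_
  revert i
  decide

end Pool.Agent.H248
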