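import Pool.Graph.R_pool_sql_team_seeded_5cf16337.K3h53.AP.Port
import Pool.Agent.H248.APs

/-!
# From a discrete bound for a pattern to coverings and Minkowski dimensions

Adapted from the library file `K3h53/AP/Port.lean` (progressions of a fixed length).
-/

set_option autoImplicit false

open Finset Filter Topology

namespace Pool.Agent.H248

open Pool.Agent.W46.KK

/-- `B` contains the pattern `a + j r`, `j ∈ J`, with every common difference `r ∈ R`. -/
def HasPat {n : ℕ} (J : Finset ℕ) (R B : Set (EuclideanSpace ℝ (Fin n))) : Prop :=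
  ∀ r ∈ R, ∃ a : EuclideanSpace ℝ (Fin n), ∀ j ∈ J, a + (j : ℝ) • r ∈ B

/-- The unit cube `[0,1]^n`. -/
def cube (n : ℕ) : Set (EuclideanSpace ℝ (Fin n)) := {r | ∀ i, r i ∈ Set.Icc (0 : ℝ) 1}

/-- the same for integer vectors -/
theorem vec {J : Finset ℕ} {c : ℝ} (h : Pat J c) (hc : 0 ≤ c) {d : ℕ} {κ : Type} (V : Finset κ)
    (x y : κ → Fin d → ℤ) (hinj : ∀ v ∈ V, ∀ w ∈ V, y v = y w → v = w) (S : Finset (Fin d → ℤ))
    (hS : ∀ v ∈ V, ∀ j ∈ J, (fun i => x v i + (j : ℤ) * y v i) ∈ S) :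
    (V.card : ℝ) ≤ (S.card : ℝ) ^ c := by
  classical
  obtain ⟨M, hM⟩ := exists_hom (V.image y)
  set φ : (Fin d → ℤ) → ℤ := fun z => ∑ i, z i * M ^ (i : ℕ) with hφ
  set P : Finset (ℤ × ℤ) := V.image fun v => (φ (x v), φ (y v)) with hP
  have hy : ∀ v ∈ V, ∀ w ∈ V, φ (y v) = φ (y w) → v = w := fun v hv w hw hvw =>
    hinj v hv w hw (hM _ (Finset.mem_image_of_mem _ hv) _ (Finset.mem_image_of_mem _ hw) hvw)
  have hcard : P.card = V.card := by
    apply Finset.card_image_of_injOn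
    intro v hv w hw hvw
    exact hy v hv w hw (congrArg Prod.snd hvw)
  have h1 := h P (S.image φ)
    (by
      intro p hp q hq hpq
      obtain ⟨v, hv, rfl⟩ := Finset.mem_image.1 (Finset.mem_coe.1 hp)
      obtain ⟨w, hw, rfl⟩ := Finset.mem_image.1 (Finset.mem_coe.1 hq)
      rw [hy v hv w hw hpq])
    (by
      intro p hp j hj
      obtain ⟨v, hv, rfl⟩ := Finset.mem_image.1 hp
      refine Finset.mem_image.2 ⟨_, hS v hv j hj, ?_⟩
      simp only [hφ]
      rw [Finset.mul_sum, ← Finset.sum_add_distrib]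
      exact Finset.sum_congr rfl fun i _ => by ring)
  rw [hcard] at h1
  refine h1.trans (Real.rpow_le_rpow (Nat.cast_nonneg _) ?_ hc)
  exact_mod_cast Finset.card_image_le

/-- Coverings of a set which contains a `k`-term progression with every common difference in `R`,
at every scale. -/
theorem gen {J : Finset ℕ} {k : ℕ} (hk : ∀ j ∈ J, j < k) {c : ℝ} (h : Pat J c) (hc : 0 ≤ c) {n : ℕ}
    (R B : Set (EuclideanSpace ℝ (Fin n)))
    (hB : ∀ r ∈ R, ∃ a : EuclideanSpace ℝ (Fin n), ∀ j ∈ J, a + (j : ℝ) • r ∈ B)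
    {δ : ℝ} (hδ : 0 < δ) (V : Finset (EuclideanSpace ℝ (Fin n))) (hVR : ∀ v ∈ V, v ∈ R)
    (hsep : ∀ v ∈ V, ∀ w ∈ V, v ≠ w → ∃ i, δ ≤ |v i - w i|)
    {ι : Type} [Fintype ι] (U : ι → Set (EuclideanSpace ℝ (Fin n)))
    (hU : ∀ i, ∀ x ∈ U i, ∀ y ∈ U i, dist x y ≤ δ) (hcov : B ⊆ ⋃ i, U i) :
    (V.card : ℝ) ≤ ((3 * k : ℝ) ^ n * (Fintype.card ι : ℝ)) ^ c := by
  classical
  have hex : ∀ v : EuclideanSpace ℝ (Fin n), ∃ a : EuclideanSpace ℝ (Fin n), v ∈ R →
      ∀ j ∈ J, a + (j : ℝ) • v ∈ B := by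
    intro v
    by_cases hv : v ∈ R
    · obtain ⟨a, ha⟩ := hB v hv
      exact ⟨a, fun _ => ha⟩
    · exact ⟨0, fun h' => absurd h' hv⟩
  choose p hp using hex
  -- the cells of the points of the progressions
  set W : Finset (EuclideanSpace ℝ (Fin n) × ℕ) := V ×ˢ J with hW
  set f : EuclideanSpace ℝ (Fin n) × ℕ → Fin n → ℝ := fun q i => p q.1 i + (q.2 : ℝ) * q.1 i
    with hf
  set Z : Finset (Fin n → ℤ) := W.image fun q => fl δ (f q) with hZ
  have hZc : Z.card ≤ 3 ^ n * Fintype.card ι := by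
    refine card_cells (d := n) hδ (fun i => (WithLp.toLp 2) ⁻¹' (U i)) ?_ W f ?_
    · intro i x hx y hy l
      refine le_trans ?_ (hU i _ hx _ hy)
      rw [EuclideanSpace.dist_eq]
      have h3 : dist (x l) (y l) ^ 2 ≤ ∑ i, dist (x i) (y i) ^ 2 :=
        Finset.single_le_sum (f := fun i => dist (x i) (y i) ^ 2) (fun _ _ => sq_nonneg _)
          (Finset.mem_univ l)
      rw [← Real.dist_eq]
      exact Real.le_sqrt_of_sq_le h3
    · intro q hq
      have hq1 : q.1 ∈ V := (Finset.mem_product.1 hq).1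
      have h1 := hcov (hp q.1 (hVR _ hq1) q.2 (Finset.mem_product.1 hq).2)
      rw [Set.mem_iUnion] at h1
      obtain ⟨i, hi⟩ := h1
      refine ⟨i, ?_⟩
      rw [Set.mem_preimage]
      convert hi using 1
      ext l
      simp [hf]
  -- the exact progressions
  set S : Finset (Fin n → ℤ) :=
    (Z ×ˢ (Finset.univ : Finset (Fin n → Fin k))).image fun q => fun i => q.1 i - ((q.2 i : ℕ) : ℤ)
    with hS
  have hSc : S.card ≤ 3 ^ n * Fintype.card ι * k ^ n := by
    refine Finset.card_image_le.trans ?_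
    rw [Finset.card_product, Finset.card_univ, Fintype.card_pi, Finset.prod_const,
      Finset.card_univ, Fintype.card_fin, Fintype.card_fin]
    exact Nat.mul_le_mul_right _ hZc
  have key := vec h hc V (fun v i => ⌊p v i / δ⌋) (fun v i => ⌊v i / δ⌋)
    (by
      intro v hv w hw hvw
      by_contra hne
      obtain ⟨i, hi⟩ := hsep v hv w hw hne
      have h1 : ⌊v i / δ⌋ = ⌊w i / δ⌋ := congrFun hvw i
      have h2 := Int.abs_sub_lt_one_of_floor_eq_floor h1
      rw [← sub_div, abs_div, abs_of_pos hδ, div_lt_one hδ] at h2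
      linarith)
    S
    (by
      intro v hv j hj
      -- the difference of the two roundings
      have hjk := hk j hj
      have hd : ∀ i, ∃ e : Fin k, ⌊f (v, j) i / δ⌋ - ((e : ℕ) : ℤ) =
          ⌊p v i / δ⌋ + (j : ℤ) * ⌊v i / δ⌋ := by
        intro i
        have e1 : f (v, j) i / δ = p v i / δ + (j : ℝ) * (v i / δ) := by
          simp only [hf]
          ring
        rw [e1]
        set A : ℝ := p v i / δ with hA
        set C : ℝ := v i / δ with hC
        have a1 := Int.floor_le A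
        have a2 := Int.lt_floor_add_one A
        have c1 := Int.floor_le C
        have c2 := (Int.lt_floor_add_one C).le
        have hj0 : (0 : ℝ) ≤ (j : ℝ) := Nat.cast_nonneg _
        have b1 : ⌊A⌋ + (j : ℤ) * ⌊C⌋ ≤ ⌊A + (j : ℝ) * C⌋ := by
          rw [Int.le_floor]
          push_cast
          nlinarith [mul_le_mul_of_nonneg_left c1 hj0]
        have b2 : ⌊A + (j : ℝ) * C⌋ < ⌊A⌋ + (j : ℤ) * ⌊C⌋ + (j + 1 : ℤ) := by
          rw [Int.floor_lt]
          push_cast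
          nlinarith [mul_le_mul_of_nonneg_left c2 hj0]
        refine ⟨⟨(⌊A + (j : ℝ) * C⌋ - (⌊A⌋ + (j : ℤ) * ⌊C⌋)).toNat, by omega⟩, ?_⟩
        have : (((⌊A + (j : ℝ) * C⌋ - (⌊A⌋ + (j : ℤ) * ⌊C⌋)).toNat : ℕ) : ℤ) =
            ⌊A + (j : ℝ) * C⌋ - (⌊A⌋ + (j : ℤ) * ⌊C⌋) := Int.toNat_of_nonneg (by omega)
        simp only [this]
        ring
      choose e he using hd
      refine Finset.mem_image.2 ⟨(fl δ (f (v, j)), e), ?_, ?_⟩
      · refine Finset.mem_product.2 ⟨?_, Finset.mem_univ _⟩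
        exact Finset.mem_image_of_mem _ (Finset.mem_product.2 ⟨hv, hj⟩)
      · funext i
        exact he i)
  refine key.trans (Real.rpow_le_rpow (Nat.cast_nonneg _) ?_ hc)
  calc (S.card : ℝ) ≤ ((3 ^ n * Fintype.card ι * k ^ n : ℕ) : ℝ) := by exact_mod_cast hSc
    _ = (3 * k : ℝ) ^ n * (Fintype.card ι : ℝ) := by
        push_cast
        rw [mul_pow]
        ring

/-- Progressions with every common difference in the unit cube: coverings at every scale. -/
theorem cover {J : Finset ℕ} {k : ℕ} (hk : ∀ j ∈ J, j < k) {c : ℝ} (h : Pat J c) (hc : 0 < c) (n : ℕ) :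
    ∃ κ : ℝ, 0 < κ ∧ ∀ B : Set (EuclideanSpace ℝ (Fin n)), HasPat J (cube n) B →
      ∀ δ : ℝ, 0 < δ → ∀ (ι : Type) [Fintype ι] (U : ι → Set (EuclideanSpace ℝ (Fin n))),
        (∀ i, ∀ x ∈ U i, ∀ y ∈ U i, dist x y ≤ δ) → B ⊆ ⋃ i, U i →
        κ * δ ^ (-((n : ℝ) / c)) ≤ (Fintype.card ι : ℝ) := by
  classical
  have hD : ∃ D : ℝ, 0 < D ∧ (3 * k : ℝ) ^ n ≤ D := ⟨(3 * k : ℝ) ^ n + 1, by positivity, by linarith⟩
  obtain ⟨D, hDpos, hDle⟩ := hD
  refine ⟨1 / D, by positivity, fun B hB δ hδ ι _ U hU hcov => ?_⟩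
  set V : Finset (EuclideanSpace ℝ (Fin n)) := (grid n δ).image (fun v => WithLp.toLp 2 v) with hV
  have hVc : V.card = (grid n δ).card := by
    rw [hV]
    exact Finset.card_image_of_injective _ (WithLp.toLp_injective 2)
  have h1 := gen hk h hc.le (cube n) B (fun r hr => hB r hr) hδ V
    (by
      intro v hv
      obtain ⟨w, hw, rfl⟩ := Finset.mem_image.1 hv
      exact fun i => grid_mem hδ hw i)
    (by
      intro v hv w hw hne
      obtain ⟨v', hv', rfl⟩ := Finset.mem_image.1 hv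
      obtain ⟨w', hw', rfl⟩ := Finset.mem_image.1 hw
      exact grid_sep hδ hv' hw' (fun h' => hne (congrArg (WithLp.toLp 2) h')))
    U hU hcov
  set N : ℝ := (Fintype.card ι : ℝ) with hNdef
  have hNnn : 0 ≤ N := Nat.cast_nonneg _
  have h5 : (1 / δ) ^ n ≤ (D * N) ^ c := by
    refine le_trans ?_ (h1.trans (Real.rpow_le_rpow (by positivity)
      (mul_le_mul_of_nonneg_right hDle hNnn) hc.le))
    rw [hVc]
    exact grid_card hδ
  have h6 : ((1 / δ) ^ n) ^ (1 / c) ≤ D * N := by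
    have h7 := Real.rpow_le_rpow (by positivity) h5 (by positivity : 0 ≤ 1 / c)
    rwa [← Real.rpow_mul (by positivity), mul_one_div_cancel hc.ne', Real.rpow_one] at h7
  have h8 : ((1 / δ) ^ n) ^ (1 / c) = δ ^ (-((n : ℝ) / c)) := by
    rw [← Real.rpow_natCast, ← Real.rpow_mul (by positivity), mul_one_div,
      one_div, Real.inv_rpow hδ.le, Real.rpow_neg hδ.le]
  rw [h8] at h6
  rw [div_mul_eq_mul_div, one_mul, div_le_iff₀ hDpos, mul_comm N D]
  exact h6


/-- Lower Minkowski dimension of sets with a pattern. -/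
theorem lower {J : Finset ℕ} {c : ℝ} (hc : 0 < c) (h : Pat J c) (n : ℕ)
    (B : Set (EuclideanSpace ℝ (Fin n))) (hB : Bornology.IsBounded B)
    (hP : HasPat J (cube n) B) :
    (((n : ℝ) / c : ℝ) : EReal) ≤
      liminf (fun δ : ℝ => ((Real.log (coverNum B δ) / Real.log (1 / δ) : ℝ) : EReal))
        (𝓝[>] 0) := by
  have hk : ∀ j ∈ J, j < J.sup id + 1 := fun j hj =>
    Nat.lt_succ_of_le (Finset.le_sup (f := id) hj)
  obtain ⟨κ, hκ, hprog⟩ := cover hk h hc n
  have hcnt : ∀ δ : ℝ, 0 < δ → κ * δ ^ (-((n : ℝ) / c)) ≤ (coverNum B δ : ℝ) := by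
    intro δ hδ
    obtain ⟨U, hU1, hU2⟩ := Nat.sInf_mem (cover_nonempty hB hδ)
    have := hprog B hP δ hδ (Fin _) U hU1 hU2
    rwa [Fintype.card_fin] at this
  refine le_of_forall_lt fun x hx => ?_
  obtain ⟨y, hxy, hy⟩ := EReal.lt_iff_exists_real_btwn.mp hx
  refine lt_of_lt_of_le hxy ?_
  have hy' : y < (n : ℝ) / c := by exact_mod_cast hy
  exact le_liminf_of_le (by isBoundedDefault)
    (Pool.Agent.K3h53.AP.ev hκ n (coverNum B) hcnt y hy')

end Pool.Agent.H248
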